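import Pool.Agent.Work.MP_022f22_nt.PG.Fin

/-! # Lehmer's problem for elliptic curves, up to `exp (C √(log D log log D))` -/

open NumberField Filter Topology LEH

namespace Pool.Agent.Results.MP_022f22_nt.EllipticLehmer

open Classical in
/-- Let `E` be an elliptic curve over a number field `K`, and assume that some conjugate of its
`j`-invariant is real, or that `E` has potentially good supersingular reduction at some finite
place. Then the canonical height of the points `P` of infinite order over the algebraic closure is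
at least `D⁻¹ exp(-C √((log D + 3) log (log D + 3)))`, where `D = [K(P) : K]`. -/
theorem result (K : Type) [Field K] [NumberField K] (E : WeierstrassCurve K) (hE : E.Δ ≠ 0)
    (h : (∃ σ : K →+* ℂ, (σ (E.c₄ ^ 3 / E.Δ)).im = 0) ∨ PotSupersingular E) :
    (∃ C : ℝ, 0 < C ∧ ∀ P : (E.baseChange (AlgebraicClosure K)).toAffine.Point, InfOrder P →
      Tendsto (fun n : ℕ => naiveHeight (2 ^ n • P) / 4 ^ n) atTop (𝓝 (canonicalHeight P)) ∧
      lowerBd C (ptDegree K P) ≤ canonicalHeight P) ∧
    ∀ ε : ℝ, 0 < ε → ∃ c : ℝ, 0 < c ∧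
      ∀ P : (E.baseChange (AlgebraicClosure K)).toAffine.Point, InfOrder P →
        c / (ptDegree K P : ℝ) ^ (1 + ε) ≤ canonicalHeight P := by
  have hp : PotSupersingular E := by
    rcases h with ⟨σ, hσ⟩ | h
    · exact pot_of_conj E hE σ hσ
    · exact h
  obtain ⟨C, hC, H⟩ := lehmer_pot E hp
  refine ⟨⟨C, hC, H⟩, fun ε hε => ?_⟩
  obtain ⟨c, hc, hce⟩ := eps_form C ε hC hε
  exact ⟨c, hc, fun P hP => (hce _ (ptDegree_pos E P)).trans (H P hP).2⟩

end Pool.Agent.Results.MP_022f22_nt.EllipticLehmer
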