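import Pool.Agent.Work.MP_022f22_nt.LG.Fin

/-! # Lehmer's problem in powers of elliptic curves without complex multiplication -/

open NumberField IsDedekindDomain Filter Topology LEH LEG

namespace Pool.Agent.Results.MP_022f22_nt.EllipticPowers

open Classical in
/-- Let `E` be an elliptic curve over a number field `K` such that some conjugate of its
`j`-invariant is real or `E` has good supersingular reduction at infinitely many places of `K`.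
For all `g ≥ 1` and `ε > 0` there is `c > 0` such that for all `P = (P_1, …, P_g)`, `P_i` in
`E(K^alg)` of infinite order, `D = [K(P) : K]`, and all `ω ≥ 1` such that no nonzero polynomial over
`K` of degree `< ω` in each variable vanishes at `(x(P_1), …, x(P_g))`, we have `ω ^ g ≤ D`,
`∑ ĥ(P_i) ≥ c D ^ (-ε) ω⁻¹ (ω ^ g / D) ^ 3` and, if `ω ≥ D ^ (1/g - η)`,
`∑ ĥ(P_i) ≥ c D ^ (-(1/g + 3 g η + ε))`. -/
theorem result (K : Type) [Field K] [NumberField K] (E : WeierstrassCurve K) (hE : E.Δ ≠ 0)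
    (h : (∃ σ : K →+* ℂ, (σ (E.c₄ ^ 3 / E.Δ)).im = 0) ∨
      {v : HeightOneSpectrum (𝓞 K) | ∃ W : WeierstrassCurve (v.valuation K).valuationSubring,
        W.map (algebraMap _ K) = E ∧ GoodSupersingular W}.Infinite)
    (g : ℕ) (hg : 1 ≤ g) (ε : ℝ) (hε : 0 < ε) :
    ∃ c : ℝ, 0 < c ∧ ∀ P : Fin g → (E.baseChange (AlgebraicClosure K)).toAffine.Point,
      (∀ i, InfOrder (P i)) →
      (∀ i, Tendsto (fun n : ℕ => naiveHeight (2 ^ n • P i) / 4 ^ n) atTop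
        (𝓝 (canonicalHeight (P i)))) ∧
      ∀ ω : ℕ, 1 ≤ ω →
        (∀ f : MvPolynomial (Fin g) K, (∀ i, f.degreeOf i < ω) →
          MvPolynomial.aeval (fun i => xCoord (P i)) f = 0 → f = 0) →
        ω ^ g ≤ tupDegree K P ∧
        c * (tupDegree K P : ℝ) ^ (-ε) * (ω : ℝ)⁻¹ * ((ω : ℝ) ^ g / tupDegree K P) ^ 3 ≤
          ∑ i, canonicalHeight (P i) ∧
        ∀ η : ℝ, 0 ≤ η → (tupDegree K P : ℝ) ^ ((g : ℝ)⁻¹ - η) ≤ ω →
          c * (tupDegree K P : ℝ) ^ (-((g : ℝ)⁻¹ + 3 * g * η + ε)) ≤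
            ∑ i, canonicalHeight (P i) := by
  obtain ⟨c, hc, H⟩ := lehmer_power E hE h g hg ε hε
  refine ⟨c, hc, fun P hP => ⟨(H P hP).1, fun ω hω hN => ?_⟩⟩
  obtain ⟨h1, h2⟩ := (H P hP).2 ω hω hN
  refine ⟨h1, h2, fun η hη hηω => le_trans ?_ h2⟩
  set D := tupDegree K P with hD
  have hD1 : 1 ≤ D := le_trans (Nat.one_le_pow _ _ hω) h1
  have hDr : (1 : ℝ) ≤ D := by exact_mod_cast hD1
  have hD0 : (0 : ℝ) < D := by linarith
  have hω0 : (0 : ℝ) < ω := by exact_mod_cast hω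
  have hg0 : (0 : ℝ) < g := by exact_mod_cast hg
  have h3 : (ω : ℝ) ≤ (D : ℝ) ^ ((g : ℝ)⁻¹) := by
    have h4 : ((ω : ℝ) ^ g) ^ ((g : ℝ)⁻¹) ≤ (D : ℝ) ^ ((g : ℝ)⁻¹) := by
      apply Real.rpow_le_rpow (by positivity) _ (by positivity)
      exact_mod_cast h1
    rwa [Real.pow_rpow_inv_natCast hω0.le (by omega)] at h4
  have h5 : (D : ℝ) ^ (-((g : ℝ)⁻¹)) ≤ (ω : ℝ)⁻¹ := by
    rw [Real.rpow_neg hD0.le]
    exact inv_anti₀ hω0 h3
  have h6 : (D : ℝ) ^ (-(g * η)) ≤ (ω : ℝ) ^ g / D := by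
    rw [le_div_iff₀ hD0]
    have h7 : ((D : ℝ) ^ ((g : ℝ)⁻¹ - η)) ^ g ≤ (ω : ℝ) ^ g :=
      pow_le_pow_left₀ (by positivity) hηω g
    refine le_trans (le_of_eq ?_) h7
    rw [← Real.rpow_natCast, ← Real.rpow_mul hD0.le]
    nth_rewrite 2 [← Real.rpow_one (D : ℝ)]
    rw [← Real.rpow_add hD0]
    congr 1
    field_simp
    ring
  have h8 : (D : ℝ) ^ (-((g : ℝ)⁻¹ + 3 * g * η + ε)) =
      (D : ℝ) ^ (-ε) * (D : ℝ) ^ (-((g : ℝ)⁻¹)) * ((D : ℝ) ^ (-(g * η))) ^ 3 := by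
    rw [← Real.rpow_natCast, ← Real.rpow_mul hD0.le, ← Real.rpow_add hD0, ← Real.rpow_add hD0]
    congr 1
    push_cast
    ring
  rw [h8]
  have h9 : ((D : ℝ) ^ (-(g * η))) ^ 3 ≤ ((ω : ℝ) ^ g / D) ^ 3 :=
    pow_le_pow_left₀ (by positivity) h6 3
  calc c * ((D : ℝ) ^ (-ε) * (D : ℝ) ^ (-((g : ℝ)⁻¹)) * ((D : ℝ) ^ (-(g * η))) ^ 3)
      = c * (D : ℝ) ^ (-ε) * (D : ℝ) ^ (-((g : ℝ)⁻¹)) * ((D : ℝ) ^ (-(g * η))) ^ 3 := by ring
    _ ≤ c * (D : ℝ) ^ (-ε) * (ω : ℝ)⁻¹ * ((ω : ℝ) ^ g / D) ^ 3 := by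
        apply mul_le_mul _ h9 (by positivity) (by positivity)
        exact mul_le_mul_of_nonneg_left h5 (by positivity)

end Pool.Agent.Results.MP_022f22_nt.EllipticPowers
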